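import Mathlib
set_option autoImplicit false
set_option linter.unusedVariables false
open IsLocalRing

/-!
Finite linear defect gives exactness of the linear part of a minimal resolution in all large total degrees
(Noetherian argument: multiplication by elements of the maximal ideal is null-homotopic, Artin-Rees).
-/

namespace Pool.Agent.N207.LD

/-- exactness of the linear part in all total degrees `> w` -/
def Acyc (R : Type) [CommRing R] [IsLocalRing R] (b : ℕ → ℕ)
    (d : ∀ n : ℕ, (Fin (b (n+1)) → R) →ₗ[R] (Fin (b n) → R)) (w : ℕ) : Prop :=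
  ∀ n j : ℕ, w < n + 1 + j → ∀ x : Fin (b (n+1)) → R,
        x ∈ (maximalIdeal R) ^ j • (⊤ : Submodule R (Fin (b (n+1)) → R)) →
        d n x ∈ (maximalIdeal R) ^ (j+2) • (⊤ : Submodule R (Fin (b n) → R)) →
        x ∈ (maximalIdeal R) ^ (j+1) • (⊤ : Submodule R (Fin (b (n+1)) → R)) ⊔
          Submodule.map (d (n+1))
            ((maximalIdeal R) ^ (j-1) • (⊤ : Submodule R (Fin (b (n+1+1)) → R)))

/-- lifting along a linear map whose range is large enough -/
theorem lift {R : Type} [CommRing R] {P M N : Type} [AddCommGroup P] [Module R P] [Module.Projective R P]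
    [AddCommGroup M] [Module R M] [AddCommGroup N] [Module R N] (f : M →ₗ[R] N) (g : P →ₗ[R] N)
    (h : ∀ x, g x ∈ LinearMap.range f) : ∃ k : P →ₗ[R] M, ∀ x, f (k x) = g x := by
  obtain ⟨k, hk⟩ := Module.projective_lifting_property f.rangeRestrict (g.codRestrict (LinearMap.range f) h)
    f.surjective_rangeRestrict
  refine ⟨k, fun x => ?_⟩
  have := LinearMap.congr_fun hk x
  exact congrArg Subtype.val this

section

variable (R : Type) [CommRing R] [IsLocalRing R]
    (b : ℕ → ℕ) (d : ∀ n : ℕ, (Fin (b (n+1)) → R) →ₗ[R] (Fin (b n) → R))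

theorem homotopy_aux (ε : (Fin (b 0) → R) →ₗ[R] ResidueField R)
    (h0 : LinearMap.ker ε = LinearMap.range (d 0))
    (hex : ∀ n : ℕ, LinearMap.ker (d n) = LinearMap.range (d (n+1)))
    (a : R) (ha : a ∈ maximalIdeal R) (n : ℕ) :
    ∃ h : (Fin (b n) → R) →ₗ[R] (Fin (b (n+1)) → R), ∀ x, d n (h (d n x)) = a • d n x := by
  induction n with
  | zero =>
    obtain ⟨k, hk⟩ := lift (R := R) (d 0) (a • LinearMap.id) (by
      intro x
      rw [← h0, LinearMap.mem_ker]
      simp only [LinearMap.smul_apply, LinearMap.id_coe, id_eq, map_smul]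
      rw [Algebra.smul_def]
      have : algebraMap R (ResidueField R) a = 0 := by
        rw [ResidueField.algebraMap_eq, residue_eq_zero_iff]
        exact ha
      rw [this, zero_mul])
    exact ⟨k, fun x => by simpa using hk (d 0 x)⟩
  | succ n ih =>
    obtain ⟨h, hh⟩ := ih
    obtain ⟨k, hk⟩ := lift (R := R) (d (n+1)) (a • LinearMap.id - h ∘ₗ d n) (by
      intro x
      rw [← hex n, LinearMap.mem_ker]
      simp only [LinearMap.sub_apply, LinearMap.smul_apply, LinearMap.id_coe, id_eq, LinearMap.comp_apply,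
        map_sub, map_smul, hh, sub_self])
    refine ⟨k, fun x => ?_⟩
    rw [hk]
    have hz : d n (d (n+1) x) = 0 := by
      have : d (n+1) x ∈ LinearMap.ker (d n) := by
        rw [hex n]
        exact ⟨x, rfl⟩
      exact this
    simp [hz]

theorem homotopy (ε : (Fin (b 0) → R) →ₗ[R] ResidueField R)
    (h0 : LinearMap.ker ε = LinearMap.range (d 0))
    (hex : ∀ n : ℕ, LinearMap.ker (d n) = LinearMap.range (d (n+1)))
    (a : R) (ha : a ∈ maximalIdeal R) (n : ℕ) :
    ∃ (h : (Fin (b n) → R) →ₗ[R] (Fin (b (n+1)) → R)) (k : (Fin (b (n+1)) → R) →ₗ[R] (Fin (b (n+1+1)) → R)),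
      ∀ x, d (n+1) (k x) + h (d n x) = a • x := by
  obtain ⟨h, hh⟩ := homotopy_aux R b d ε h0 hex a ha n
  obtain ⟨k, hk⟩ := lift (R := R) (d (n+1)) (a • LinearMap.id - h ∘ₗ d n) (by
    intro x
    rw [← hex n, LinearMap.mem_ker]
    simp only [LinearMap.sub_apply, LinearMap.smul_apply, LinearMap.id_coe, id_eq, LinearMap.comp_apply,
      map_sub, map_smul, hh, sub_self])
  refine ⟨h, k, fun x => ?_⟩
  rw [hk]
  simp

/-- a linear map sends `I • ⊤` into `I • ⊤` -/
theorem map_mem {M N : Type} [AddCommGroup M] [Module R M] [AddCommGroup N] [Module R N] (f : M →ₗ[R] N)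
    (I : Ideal R) {x : M} (hx : x ∈ I • (⊤ : Submodule R M)) : f x ∈ I • (⊤ : Submodule R N) := by
  have h1 : Submodule.map f (I • (⊤ : Submodule R M)) ≤ I • (⊤ : Submodule R N) := by
    rw [Submodule.map_smul'']
    exact Submodule.smul_mono le_rfl le_top
  exact h1 ⟨x, hx, rfl⟩

/-- the cycles of the linear part -/
def filt (n : ℕ) : (maximalIdeal R).Filtration (Fin (b (n+1)) → R) where
  N j := (maximalIdeal R) ^ j • (⊤ : Submodule R (Fin (b (n+1)) → R)) ⊓
    Submodule.comap (d n) ((maximalIdeal R) ^ (j+2) • (⊤ : Submodule R (Fin (b n) → R)))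
  mono j := inf_le_inf (Submodule.smul_mono_left (Ideal.pow_le_pow_right (Nat.le_succ j)))
    (Submodule.comap_mono (Submodule.smul_mono_left (Ideal.pow_le_pow_right (by omega))))
  smul_le j := by
    rw [Submodule.smul_le]
    rintro a ha z ⟨hz1, hz2⟩
    refine ⟨?_, ?_⟩
    · rw [pow_succ', mul_smul]
      exact Submodule.smul_mem_smul ha hz1
    · simp only [SetLike.mem_coe, Submodule.mem_comap, map_smul] at hz2 ⊢
      rw [show j + 1 + 2 = (j + 2) + 1 from by ring, pow_succ', mul_smul]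
      exact Submodule.smul_mem_smul ha hz2

theorem key [IsNoetherianRing R] (ε : (Fin (b 0) → R) →ₗ[R] ResidueField R)
    (h0 : LinearMap.ker ε = LinearMap.range (d 0))
    (hex : ∀ n : ℕ, LinearMap.ker (d n) = LinearMap.range (d (n+1))) (n : ℕ) :
    ∃ j0 : ℕ, ∀ j : ℕ, j0 < j → ∀ x : Fin (b (n+1)) → R,
        x ∈ (maximalIdeal R) ^ j • (⊤ : Submodule R (Fin (b (n+1)) → R)) →
        d n x ∈ (maximalIdeal R) ^ (j+2) • (⊤ : Submodule R (Fin (b n) → R)) →
        x ∈ (maximalIdeal R) ^ (j+1) • (⊤ : Submodule R (Fin (b (n+1)) → R)) ⊔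
          Submodule.map (d (n+1))
            ((maximalIdeal R) ^ (j-1) • (⊤ : Submodule R (Fin (b (n+1+1)) → R))) := by
  have hst : (filt R b d n).Stable := by
    refine Ideal.Filtration.Stable.of_le ((maximalIdeal R).stableFiltration_stable
      (⊤ : Submodule R (Fin (b (n+1)) → R))) ?_
    intro j
    exact inf_le_left
  obtain ⟨j0, hj0⟩ := hst
  refine ⟨j0, fun j hj x hx hdx => ?_⟩
  obtain ⟨i, rfl⟩ : ∃ i, j = i + 1 := ⟨j - 1, by omega⟩
  have hx' : x ∈ (filt R b d n).N (i + 1) := ⟨hx, hdx⟩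
  rw [← hj0 i (by omega)] at hx'
  rw [show i + 1 - 1 = i from rfl]
  refine Submodule.smul_induction_on hx' ?_ fun x y hx hy => Submodule.add_mem _ hx hy
  rintro a ha z ⟨hz1, hz2⟩
  obtain ⟨h, k, hk⟩ := homotopy R b d ε h0 hex a ha n
  rw [← hk z]
  refine Submodule.add_mem _ (Submodule.mem_sup_right ⟨k z, map_mem R k _ hz1, rfl⟩) (Submodule.mem_sup_left ?_)
  exact map_mem R h _ hz2

end

theorem acyc_of_finite (R : Type) [CommRing R] [IsLocalRing R] [IsNoetherianRing R]
    (b : ℕ → ℕ) (d : ∀ n : ℕ, (Fin (b (n+1)) → R) →ₗ[R] (Fin (b n) → R))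
    (ε : (Fin (b 0) → R) →ₗ[R] ResidueField R) (hε : Function.Surjective ε)
    (h0 : LinearMap.ker ε = LinearMap.range (d 0))
    (hex : ∀ n : ℕ, LinearMap.ker (d n) = LinearMap.range (d (n+1)))
    (hmin : ∀ n : ℕ, LinearMap.range (d n) ≤ maximalIdeal R • (⊤ : Submodule R (Fin (b n) → R)))
    (hN : ∃ N : ℕ, ∀ n : ℕ, N ≤ n → ∀ j : ℕ, ∀ x : Fin (b (n+1)) → R,
        x ∈ (maximalIdeal R) ^ j • (⊤ : Submodule R (Fin (b (n+1)) → R)) →
        d n x ∈ (maximalIdeal R) ^ (j+2) • (⊤ : Submodule R (Fin (b n) → R)) →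
        x ∈ (maximalIdeal R) ^ (j+1) • (⊤ : Submodule R (Fin (b (n+1)) → R)) ⊔
          Submodule.map (d (n+1))
            ((maximalIdeal R) ^ (j-1) • (⊤ : Submodule R (Fin (b (n+1+1)) → R)))) :
    ∃ w : ℕ, Acyc R b d w := by
  obtain ⟨N, hN⟩ := hN
  choose j0 hj0 using fun n => key R b d ε h0 hex n
  refine ⟨N + ∑ n ∈ Finset.range N, j0 n + 1, fun n j hw x hx hdx => ?_⟩
  by_cases hn : N ≤ n
  · exact hN n hn j x hx hdx
  · refine hj0 n j ?_ x hx hdx
    have h1 : j0 n ≤ ∑ n ∈ Finset.range N, j0 n :=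
      Finset.single_le_sum (fun i _ => Nat.zero_le _) (Finset.mem_range.2 (by omega))
    omega

end Pool.Agent.N207.LD
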